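import Pool.Agent.H44.SO.Basic
import Pool.Agent.H44.SO.Targets

/-!
# Several orbits of vertices: row CMB, all types together
-/

set_option autoImplicit false

namespace Pool.Agent.H13.SO.CMB

open Pool.Agent.H44.SO Pool.Agent.H57.SO Pool.Agent.H68.BP Pool.Agent.H58.SF Pool.Agent.H53.GC
  Pool.Agent.H53.NR Function
open Pool.Agent.H57.EQ (Cx Tour)

/-- exchange of the coordinates -/
def sw {A : Type} (t : Fin 2 → A) : Fin 2 → A := fun i => t i.rev

/-- exchange of the coordinates -/
def sS (A : Set (Fin 2)) : Set (Fin 2) := {i | i.rev ∈ A}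

section

variable {V S X : Type} {σ : Sig} {P : Pal S X} {𝔸 : Str σ V} {c : V → V → S ⊕ X}

/-- composition `f (g (x, y), g (y, x))` -/
theorem bh_comp {τf τg : (Fin 2 → S) → S} {κf κg : (Fin 2 → S) → (Fin 2 → S) → Set (Fin 2) → Prop}
    (hf : Bh P 𝔸 c τf κf) (hg : Bh P 𝔸 c τg κg) :
    Bh P 𝔸 c (fun t => τf ![τg t, τg (sw t)]) (fun t t' A =>
      κf ![τg t, τg (sw t)] ![τg t', τg (sw t')]
        {j | (![κg t t' A, κg (sw t) (sw t') (sS A)] : Fin 2 → Prop) j}) := by
  intro W _ G
  obtain ⟨ψ0, hc0, ht0, he0⟩ := hg W G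
  obtain ⟨ψ1, hc1, ht1, he1⟩ := hg W (fun i => G i.rev)
  obtain ⟨ψ, hc, ht, he⟩ := hf W ![ψ0, ψ1]
  have e : ∀ u, (fun i => vt P c ((![ψ0, ψ1] : Fin 2 → W → V) i u)) =
      ![τg (fun i => vt P c (G i u)), τg (sw fun i => vt P c (G i u))] := by
    intro u
    funext i
    fin_cases i
    · exact ht0 u
    · exact ht1 u
  refine ⟨ψ, ?_, ?_, ?_⟩
  · intro l z hz
    refine hc l z fun i => ?_
    fin_cases i
    · exact hc0 l z hz
    · exact hc1 l z (fun i => hz i.rev)
  · intro w
    rw [ht w, e]
  · intro u w
    rw [he u w, e, e]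
    have : {i | (![ψ0, ψ1] : Fin 2 → W → V) i u = (![ψ0, ψ1] : Fin 2 → W → V) i w} =
        {j | (![κg (fun i => vt P c (G i u)) (fun i => vt P c (G i w)) {i | G i u = G i w},
          κg (sw fun i => vt P c (G i u)) (sw fun i => vt P c (G i w))
            (sS {i | G i u = G i w})] : Fin 2 → Prop) j} := by
      ext j
      fin_cases j
      · exact he0 u w
      · exact he1 u w
    rw [this]

variable [LinearOrder V] {M : ℕ}

/-- two elements of type `s` -/
theorem two (hs : Stp P 𝔸 M c) (s : S) : ∃ x y, x ≠ y ∧ vt P c x = s ∧ vt P c y = s := by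
  obtain ⟨x0, hx0⟩ := hs.col.surS s
  obtain ⟨f, _, h2, h3⟩ := pf_CFG σ V S X P 𝔸 M c hs (Fin 2) ℕ Fin.val (fun _ => s)
    (fun _ _ => P.fr s s) Fin.val_injective (fun _ _ _ => (P.rv_fr s s).symm)
    (fun K hK => ⟨fun _ => x0, fun _ _ => hx0, fun x hx y hy hxy => absurd rfl (hK x hx y hy hxy)⟩)
  exact ⟨f 0, f 1, Pool.Agent.H44.SO.Col.ne_of_inr hs.col (h3 0 1 (by decide)), vt_of (h2 0), vt_of (h2 1)⟩

theorem ind (hs : Stp P 𝔸 M c)
    (h : ∀ s : S, ∃ τ κ, B2 P 𝔸 c τ κ ∧ ∀ A, κ (fun _ => s) (fun _ => s) A → A = Set.univ)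
    (T : Finset S) : ∃ τ κ, B2 P 𝔸 c τ κ ∧
      ∀ s ∈ T, ∀ A, κ (fun _ => s) (fun _ => s) A → A = Set.univ := by
  classical
  induction T using Finset.induction_on with
  | empty =>
    refine ⟨fun t => t 0, fun t t' A => 0 ∈ A, ⟨?_, fun s => rfl, fun s h => h⟩,
      fun s hs => absurd hs (Finset.notMem_empty s)⟩
    intro W _ G
    exact ⟨G 0, fun l z hz => hz 0, fun w => rfl, fun u w => Iff.rfl⟩
  | insert s T hsT ih =>
    obtain ⟨τf, κf, hf, hf'⟩ := ih
    obtain ⟨τg, κg, hg, hg'⟩ := h s
    have hcst : ∀ s' : S, (![τg (fun _ => s'), τg (sw fun _ => s')] : Fin 2 → S) =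
        fun _ => s' := by
      intro s'
      funext i
      fin_cases i <;> exact hg.idem s'
    refine ⟨_, _, ⟨bh_comp hf.bh hg.bh, fun s' => ?_, fun s' h1 => ?_⟩, fun s' hs' A h1 => ?_⟩
    · simp only [hcst]
      exact hf.idem s'
    · simp only [hcst] at h1
      refine hf.sep s' ?_
      have : {j | (![κg (fun _ => s') (fun _ => s') ∅,
          κg (sw fun _ => s') (sw fun _ => s') (sS ∅)] : Fin 2 → Prop) j} = ∅ := by
        ext j
        constructor
        · intro hj
          fin_cases j
          · exact (hg.sep s' hj).elim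
          · exact (hg.sep s' hj).elim
        · exact fun hj => hj.elim
      rwa [this] at h1
    · simp only [hcst] at h1
      rcases Finset.mem_insert.mp hs' with rfl | hs'
      · -- the new type
        by_contra hA
        refine hf.sep s' ?_
        have : {j | (![κg (fun _ => s') (fun _ => s') A,
            κg (sw fun _ => s') (sw fun _ => s') (sS A)] : Fin 2 → Prop) j} = ∅ := by
          ext j
          constructor
          · intro hj
            fin_cases j
            · exact (hA (hg' A hj)).elim
            · have h2 : sS A = Set.univ := hg' _ hj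
              refine (hA ?_).elim
              ext i
              have h3 : i.rev ∈ sS A := by rw [h2]; trivial
              have h4 : i.rev.rev ∈ A := h3
              rw [Fin.rev_rev] at h4
              exact ⟨fun _ => trivial, fun _ => h4⟩
          · exact fun hj => hj.elim
        rwa [this] at h1
      · -- an old type
        have h2 := hf' s' hs' _ h1
        have h0 : κg (fun _ => s') (fun _ => s') A := by
          have : (0 : Fin 2) ∈ {j | (![κg (fun _ => s') (fun _ => s') A,
            κg (sw fun _ => s') (sw fun _ => s') (sS A)] : Fin 2 → Prop) j} := by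
            rw [h2]; trivial
          exact this
        have h1' : κg (fun _ => s') (fun _ => s') (sS A) := by
          have : (1 : Fin 2) ∈ {j | (![κg (fun _ => s') (fun _ => s') A,
            κg (sw fun _ => s') (sw fun _ => s') (sS A)] : Fin 2 → Prop) j} := by
            rw [h2]; trivial
          exact this
        -- both `{0}` and `{1}` cannot hold
        have hno : ¬ (κg (fun _ => s') (fun _ => s') {0} ∧ κg (fun _ => s') (fun _ => s') {1}) := by
          rintro ⟨k0, k1⟩
          obtain ⟨x, y, hxy, hx, hy⟩ := two hs s'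
          obtain ⟨ψ, _, _, he⟩ := hg.bh (Fin 3) ![![x, x, y], ![x, y, y]]
          have ty : ∀ u : Fin 3, (fun i => vt P c ((![![x, x, y], ![x, y, y]] :
              Fin 2 → Fin 3 → V) i u)) = fun _ => s' := by
            intro u
            funext i
            fin_cases i <;> fin_cases u <;> first | exact hx | exact hy
          have e01 : ψ 0 = ψ 1 := by
            rw [he 0 1, ty, ty]
            have : {i | (![![x, x, y], ![x, y, y]] : Fin 2 → Fin 3 → V) i 0 =
                (![![x, x, y], ![x, y, y]] : Fin 2 → Fin 3 → V) i 1} = {0} := by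
              ext i
              fin_cases i
              · exact ⟨fun _ => rfl, fun _ => rfl⟩
              · exact ⟨fun h => (hxy h).elim, fun h => absurd h (by decide)⟩
            rw [this]
            exact k0
          have e12 : ψ 1 = ψ 2 := by
            rw [he 1 2, ty, ty]
            have : {i | (![![x, x, y], ![x, y, y]] : Fin 2 → Fin 3 → V) i 1 =
                (![![x, x, y], ![x, y, y]] : Fin 2 → Fin 3 → V) i 2} = {1} := by
              ext i
              fin_cases i
              · exact ⟨fun h => (hxy h).elim, fun h => absurd h (by decide)⟩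
              · exact ⟨fun _ => rfl, fun _ => rfl⟩
            rw [this]
            exact k1
          have e02 : ψ 0 = ψ 2 := e01.trans e12
          rw [he 0 2, ty, ty] at e02
          have : {i | (![![x, x, y], ![x, y, y]] : Fin 2 → Fin 3 → V) i 0 =
              (![![x, x, y], ![x, y, y]] : Fin 2 → Fin 3 → V) i 2} = ∅ := by
            ext i
            fin_cases i
            · exact ⟨fun h => (hxy h).elim, fun h => h.elim⟩
            · exact ⟨fun h => (hxy h).elim, fun h => h.elim⟩
          rw [this] at e02
          exact hg.sep s' e02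
        by_cases a0 : (0 : Fin 2) ∈ A <;> by_cases a1 : (1 : Fin 2) ∈ A
        · ext i
          fin_cases i
          · exact ⟨fun _ => trivial, fun _ => a0⟩
          · exact ⟨fun _ => trivial, fun _ => a1⟩
        · exfalso
          have hA : A = {0} := by
            ext i
            fin_cases i
            · exact ⟨fun _ => rfl, fun _ => a0⟩
            · exact ⟨fun h => (a1 h).elim, fun h => absurd h (by decide)⟩
          have hB : sS A = {1} := by
            ext i
            fin_cases i
            · exact ⟨fun h => (a1 h).elim, fun h => absurd h (by decide)⟩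
            · exact ⟨fun _ => rfl, fun _ => a0⟩
          rw [hB] at h1'
          rw [hA] at h0
          exact hno ⟨h0, h1'⟩
        · exfalso
          have hA : A = {1} := by
            ext i
            fin_cases i
            · exact ⟨fun h => (a0 h).elim, fun h => absurd h (by decide)⟩
            · exact ⟨fun _ => rfl, fun _ => a1⟩
          have hB : sS A = {0} := by
            ext i
            fin_cases i
            · exact ⟨fun _ => rfl, fun _ => a1⟩
            · exact ⟨fun h => (a0 h).elim, fun h => absurd h (by decide)⟩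
          rw [hB] at h1'
          rw [hA] at h0
          exact hno ⟨h1', h0⟩
        · exfalso
          have hA : A = ∅ := by
            ext i
            fin_cases i
            · exact ⟨fun h => (a0 h).elim, fun h => h.elim⟩
            · exact ⟨fun h => (a1 h).elim, fun h => h.elim⟩
          rw [hA] at h0
          exact hg.sep s' h0

end

theorem pf_CMB : T_CMB := by
  intro σ V S X _ P 𝔸 M c hs h
  have := hs.finS
  have := Fintype.ofFinite S
  obtain ⟨τ, κ, hb, hb'⟩ := ind hs h Finset.univ
  refine ⟨τ, fun t t' A => κ t t' A ∧ ∃ z z' : Fin 2 → V, (∀ i, vt P c (z i) = t i) ∧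
    (∀ i, vt P c (z' i) = t' i) ∧ ∀ i, z i = z' i ↔ i ∈ A, ?_, hb.idem, ?_⟩
  · intro W _ G
    obtain ⟨ψ, h1, h2, h3⟩ := hb.bh W G
    exact ⟨ψ, h1, h2, fun u w => ⟨fun h => ⟨(h3 u w).1 h, fun i => G i u, fun i => G i w,
      fun i => rfl, fun i => rfl, fun i => Iff.rfl⟩, fun h => (h3 u w).2 h.1⟩⟩
  · rintro s s' A ⟨h1, z, z', hz, hz', hA⟩
    by_cases hss : s = s'
    · subst hss
      exact hb' s (Finset.mem_univ s) A h1
    · exfalso
      obtain ⟨ψ, _, h2, h3⟩ := hb.bh (Fin 2) (fun i => ![z i, z' i])
      have e0 : (fun i => vt P c (z i)) = fun _ => s := funext hz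
      have e1 : (fun i => vt P c (z' i)) = fun _ => s' := funext hz'
      have eA : {i | z i = z' i} = A := by
        ext i
        exact hA i
      have h4 : ψ 0 = ψ 1 ↔ κ (fun i => vt P c (z i)) (fun i => vt P c (z' i))
        {i | z i = z' i} := h3 0 1
      have h6 : vt P c (ψ 0) = τ (fun i => vt P c (z i)) := h2 0
      have h7 : vt P c (ψ 1) = τ (fun i => vt P c (z' i)) := h2 1
      rw [e0, e1, eA] at h4
      rw [e0, hb.idem] at h6
      rw [e1, hb.idem] at h7
      rw [h4.2 h1, h7] at h6
      exact hss h6.symm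

end Pool.Agent.H13.SO.CMB
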