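import Pool.Agent.H58.SO.Basic
import Pool.Agent.H58.SO.Targets

/-!
# Several orbits of vertices: row NCT, blocks without common vertices are not identified
-/

set_option autoImplicit false

namespace Pool.Agent.H13.SO.NCT

open Pool.Agent.H68.BP Pool.Agent.H58.SF Pool.Agent.H53.GC Pool.Agent.H53.NR Pool.Agent.H58.SO

section

variable {V X Θ : Type} {M : ℕ} [LinearOrder V]

/-- the configuration of three blocks -/
theorem conf (hCFG : T_CFG) (B : Bs V X Θ M) (κ κ' : Fin 6 → ℕ) (s : Θ) (z z' : Fin 6 → V)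
    (hz : ∀ l, B.vt (z l) = s) (hz' : ∀ l, B.vt (z' l) = s) (hb' : ZB B κ' z')
    (hne : ∀ l l', z l ≠ z' l') :
    ∃ y u u' : Fin 6 → V,
      (∀ a b, B.ct (Sum.elim y u a) (Sum.elim y u b) =
        B.ct (Sum.elim z z' a) (Sum.elim z z' b)) ∧
      (∀ a b, B.ct (Sum.elim y u' a) (Sum.elim y u' b) =
        B.ct (Sum.elim z z' a) (Sum.elim z z' b)) ∧
      (∀ l l', (u l < u' l' ↔ κ' l ≤ κ' l') ∧ (u' l < u l' ↔ κ' l < κ' l')) ∧
      ∀ l l', B.c (u l) (u' l') = B.fr s s := by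
  classical
  let W : Type := {p : V × Fin 2 // (p.2 = 0 ∧ p.1 ∈ Set.range z) ∨ p.1 ∈ Set.range z'}
  have hfin : Finite W := by
    have h1 : (((Set.range z) ∪ (Set.range z')) ×ˢ (Set.univ : Set (Fin 2))).Finite :=
      ((Set.finite_range z).union (Set.finite_range z')).prod Set.finite_univ
    refine (h1.subset ?_).to_subtype
    rintro p (h | h)
    · exact ⟨Or.inl h.2, trivial⟩
    · exact ⟨Or.inr h, trivial⟩
  let rk : W → V ×ₗ Fin 2 := fun w => toLex w.1
  let t : W → Θ := fun w => B.vt w.1.1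
  let cnd : W → W → Prop := fun x y => x.1.2 ≠ y.1.2 ∧ x.1.1 ∈ Set.range z' ∧
    y.1.1 ∈ Set.range z'
  let d : W → W → X := fun x y => if cnd x y then B.fr s s else B.c x.1.1 y.1.1
  have hts : ∀ x : W, x.1.1 ∈ Set.range z' → t x = s := by
    rintro x ⟨l, hl⟩
    show B.vt x.1.1 = s
    rw [← hl]
    exact hz' l
  have hdn : ∀ x y, ¬ cnd x y → d x y = B.c x.1.1 y.1.1 := fun x y h => if_neg h
  have hdp : ∀ x y, cnd x y → d x y = B.fr s s := fun x y h => if_pos h
  have hrk : Function.Injective rk := fun x y h => Subtype.ext (toLex.injective h)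
  obtain ⟨f, hf1, hf2⟩ := hCFG V X Θ M B W (V ×ₗ Fin 2) rk t d hrk
    (by
      intro x y
      by_cases h : cnd x y
      · rw [hdp x y h, hdp y x ⟨h.1.symm, h.2.2, h.2.1⟩, B.frI]
      · rw [hdn x y h, hdn y x (fun h' => h ⟨h'.1.symm, h'.2.2, h'.2.1⟩)]
        exact B.sym _ _)
    (by
      intro x
      rw [hdn x x (fun h => h.1 rfl)]
      exact B.diag _)
    (by
      intro x y
      by_cases h : cnd x y
      · rw [hdp x y h, B.frL, hts x h.2.1]
      · rw [hdn x y h]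
        exact B.left _ _)
    (by
      intro K _ hK
      have hK' : ∀ x ∈ K, ∀ y ∈ K, ¬ cnd x y := by
        intro x hx y hy h
        have hxy : x ≠ y := fun e => h.1 (by rw [e])
        refine hK x hx y hy hxy ?_
        rw [hdp x y h, hts x h.2.1, hts y h.2.2]
      refine ⟨fun w => w.1.1, fun x hx y hy hxy => ?_, fun x hx y hy => ?_⟩
      · by_contra hne'
        have h2 : x.1.2 ≠ y.1.2 := fun e => hne' (Subtype.ext (Prod.ext hxy e))
        have h3 : x.1.1 ∈ Set.range z' := by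
          rcases x.2 with h | h
          · rcases y.2 with h' | h'
            · exact absurd (h.1.trans h'.1.symm) h2
            · have hxy' : x.1.1 = y.1.1 := hxy
              rw [hxy']; exact h'
          · exact h
        have hxy' : x.1.1 = y.1.1 := hxy
        exact hK' x hx y hy ⟨h2, h3, hxy' ▸ h3⟩
      · exact (hdn x y (hK' x hx y hy)).symm)
  have hlt : ∀ x y, f x < f y ↔ rk x < rk y := by
    intro x y
    constructor
    · intro h
      rcases lt_trichotomy (rk x) (rk y) with h1 | h1 | h1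
      · exact h1
      · rw [hrk h1] at h
        exact absurd h (lt_irrefl _)
      · exact absurd h (lt_asymm (hf1 y x h1))
    · exact hf1 x y
  -- the names
  let ny : Fin 6 → W := fun l => ⟨(z l, 0), Or.inl ⟨rfl, l, rfl⟩⟩
  let nu : Fin 6 → Fin 2 → W := fun l i => ⟨(z' l, i), Or.inr ⟨l, rfl⟩⟩
  have hnr : ∀ l, z l ∉ Set.range z' := by
    rintro l ⟨l', h⟩
    exact hne l l' h.symm
  have lyy : ∀ l l', rk (ny l) < rk (ny l') ↔ z l < z l' := by
    intro l l'
    rw [Prod.Lex.toLex_lt_toLex]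
    constructor
    · rintro (h | h)
      · exact h
      · exact absurd h.2 (lt_irrefl _)
    · exact fun h => Or.inl h
  have lyu : ∀ l l' i, rk (ny l) < rk (nu l' i) ↔ z l < z' l' := by
    intro l l' i
    rw [Prod.Lex.toLex_lt_toLex]
    constructor
    · rintro (h | h)
      · exact h
      · exact absurd h.1 (hne l l')
    · exact fun h => Or.inl h
  have luy : ∀ l l' i, rk (nu l' i) < rk (ny l) ↔ z' l' < z l := by
    intro l l' i
    rw [Prod.Lex.toLex_lt_toLex]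
    constructor
    · rintro (h | h)
      · exact h
      · exact absurd h.1.symm (hne l l')
    · exact fun h => Or.inl h
  have luu : ∀ l l' i, rk (nu l i) < rk (nu l' i) ↔ z' l < z' l' := by
    intro l l' i
    rw [Prod.Lex.toLex_lt_toLex]
    constructor
    · rintro (h | h)
      · exact h
      · exact absurd h.2 (lt_irrefl _)
    · exact fun h => Or.inl h
  have cyy : ∀ l l', B.c (f (ny l)) (f (ny l')) = B.c (z l) (z l') := fun l l' => by
    rw [hf2, hdn (ny l) (ny l') (fun h => h.1 rfl)]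
  have cyu : ∀ l l' i, B.c (f (ny l)) (f (nu l' i)) = B.c (z l) (z' l') := fun l l' i => by
    rw [hf2, hdn _ _ (fun h => hnr l h.2.1)]
  have cuy : ∀ l l' i, B.c (f (nu l' i)) (f (ny l)) = B.c (z' l') (z l) := fun l l' i => by
    rw [hf2, hdn _ _ (fun h => hnr l h.2.2)]
  have cuu : ∀ l l' i, B.c (f (nu l i)) (f (nu l' i)) = B.c (z' l) (z' l') := fun l l' i => by
    rw [hf2, hdn (nu l i) (nu l' i) (fun h => h.1 rfl)]
  have key : ∀ i : Fin 2, ∀ a b, B.ct (Sum.elim (fun l => f (ny l)) (fun l => f (nu l i)) a)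
      (Sum.elim (fun l => f (ny l)) (fun l => f (nu l i)) b) =
        B.ct (Sum.elim z z' a) (Sum.elim z z' b) := by
    rintro i (l | l) (l' | l')
    · refine (B.ct_eq_ct).2 ⟨cyy l l', ?_, ?_⟩
      · exact (hlt _ _).trans (lyy l l')
      · exact (hlt _ _).trans (lyy l' l)
    · refine (B.ct_eq_ct).2 ⟨cyu l l' i, ?_, ?_⟩
      · exact (hlt _ _).trans (lyu l l' i)
      · exact (hlt _ _).trans (luy l l' i)
    · refine (B.ct_eq_ct).2 ⟨cuy l' l i, ?_, ?_⟩
      · exact (hlt _ _).trans (luy l' l i)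
      · exact (hlt _ _).trans (lyu l' l i)
    · refine (B.ct_eq_ct).2 ⟨cuu l l' i, ?_, ?_⟩
      · exact (hlt _ _).trans (luu l l' i)
      · exact (hlt _ _).trans (luu l' l i)
  refine ⟨fun l => f (ny l), fun l => f (nu l 0), fun l => f (nu l 1), key 0, key 1,
    fun l l' => ⟨?_, ?_⟩, fun l l' => ?_⟩
  · rw [hlt, Prod.Lex.toLex_lt_toLex]
    constructor
    · rintro (h | h)
      · exact ((hb'.lt_iff l l').1 h).le
      · exact ((hb'.eq_iff l l').1 h.1).le
    · intro h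
      rcases h.lt_or_eq with h | h
      · exact Or.inl ((hb'.lt_iff l l').2 h)
      · exact Or.inr ⟨(hb'.eq_iff l l').2 h, Fin.zero_lt_one⟩
  · rw [hlt, Prod.Lex.toLex_lt_toLex]
    constructor
    · rintro (h | h)
      · exact (hb'.lt_iff l l').1 h
      · exact absurd h.2 (not_lt.2 (Fin.zero_le _))
    · exact fun h => Or.inl ((hb'.lt_iff l l').2 h)
  · rw [hf2, hdp (nu l 0) (nu l' 1) ⟨(Fin.zero_lt_one).ne, ⟨l, rfl⟩, ⟨l', rfl⟩⟩]

end

theorem pf_NCT (hCFG : T_CFG) (hEXT : T_EXT) (hUKM : T_UKM) : T_NCT := by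
  intro σ V X Θ _ M B 𝔸 D h hs hn κ κ' s z z' hsD hz hz' hb hb' hne heq
  obtain ⟨y, u, u', h1, h2, h3, h4⟩ := conf hCFG B κ κ' s z z' hz hz' hb' hne
  have e1 : h z z' = h y u := hs.tid z z' y u (sameO_of_ct h1)
  have e2 : h z z' = h y u' := hs.tid z z' y u' (sameO_of_ct h2)
  obtain ⟨γ, hγ, _⟩ := hEXT σ V X Θ M B 𝔸 D hs.blind (Fin 6) h hs.pm (Fin 3) ![y, u, u']
  have g01 : γ 0 = γ 1 := by
    rw [← B.ct_snd_eq, hγ 0 1]
    show (h y u).2 = _
    rw [← e1]; exact heq
  have g02 : γ 0 = γ 2 := by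
    rw [← B.ct_snd_eq, hγ 0 2]
    show (h y u').2 = _
    rw [← e2]; exact heq
  have g12 : (h u u').2 = Ordering.eq := by
    have h5 : B.ct (γ 1) (γ 2) = h u u' := hγ 1 2
    rw [← h5, B.ct_snd_eq, ← g01, g02]
  obtain ⟨m, hm, _, _, hm2⟩ := hUKM σ V X Θ M B 𝔸 D h hs κ' s
  have tu : ∀ l, B.vt (u l) = s := fun l =>
    (B.ct_eq_imp (h1 (Sum.inr l) (Sum.inr l))).2.1.trans (hz' l)
  have tu' : ∀ l, B.vt (u' l) = s := fun l =>
    (B.ct_eq_imp (h2 (Sum.inr l) (Sum.inr l))).2.1.trans (hz' l)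
  have zbu : ∀ v : Fin 6 → V, (∀ l, B.vt (v l) = s) →
      (∀ l l', B.ct (v l) (v l') = B.ct (z' l) (z' l')) → ZB B κ' v := by
    intro v hv hc l l'
    refine ⟨fun e => ?_, fun e => ⟨?_, ?_⟩⟩
    · exact (B.ct_eq_imp (hc l l')).1.2 ((hb' l l').1 e)
    · exact ((B.ct_eq_ct).1 (hc l l')).2.1.2 ((hb' l l').2 e).1
    · rw [((B.ct_eq_ct).1 (hc l l')).1, ((hb' l l').2 e).2, hv l, hv l', hz' l, hz' l']
  have h5 := hm2 u u' tu tu' (zbu u tu fun l l' => h1 (Sum.inr l) (Sum.inr l'))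
    (zbu u' tu' fun l l' => h2 (Sum.inr l) (Sum.inr l')) h3 h4
  exact hn m hm s hsD (by rw [h5]; exact g12)

end Pool.Agent.H13.SO.NCT
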